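import Mathlib
import Pool.Agent.Lib.lead.MTL

set_option autoImplicit false

namespace Pool.Agent.Results.MP_acc005_lc.NoLeast

open Pool.Agent.Lib.MTL Filter

/-- Four-element chains: Łukasiewicz (`true`) and drastic product (`false`). -/
def Ch (_ : Bool) := Fin 4

instance (b : Bool) : LinearOrder (Ch b) := inferInstanceAs (LinearOrder (Fin 4))
instance (b : Bool) : Fintype (Ch b) := inferInstanceAs (Fintype (Fin 4))

def mulT (b : Bool) (x y : Fin 4) : Fin 4 :=
  if x = 3 then y else if y = 3 then x else if b = true ∧ x = 2 ∧ y = 2 then 1 else 0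

def impT (b : Bool) (x y : Fin 4) : Fin 4 :=
  if x ≤ y then 3 else if x = 3 then y else if b = true then 3 - x + y else 2

instance (b : Bool) : Mul (Ch b) := ⟨mulT b⟩
instance (b : Bool) : One (Ch b) := ⟨(3 : Fin 4)⟩

instance (b : Bool) : MTL (Ch b) where
  toLattice := inferInstance
  mul_assoc := by
    show ∀ x y z : Fin 4, mulT b (mulT b x y) z = mulT b x (mulT b y z)
    cases b <;> decide
  one_mul := by show ∀ x : Fin 4, mulT b 3 x = x; cases b <;> decide
  mul_one := by show ∀ x : Fin 4, mulT b x 3 = x; cases b <;> decide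
  mul_comm := by show ∀ x y : Fin 4, mulT b x y = mulT b y x; cases b <;> decide
  imp := impT b
  f := (0 : Fin 4)
  res := by show ∀ x y z : Fin 4, mulT b x y ≤ z ↔ y ≤ impT b x z; cases b <;> decide
  le_one := by show ∀ x : Fin 4, x ≤ 3; decide
  f_le := by show ∀ x : Fin 4, 0 ≤ x; decide
  prelin := by show ∀ x y : Fin 4, max (impT b x y) (impT b y x) = 3; cases b <;> decide

abbrev car (b : Bool) : Unit → Type := fun _ => Ch b

lemma nil (b : Bool) : Nil (car b) := by
  intro _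
  show ∀ x : Fin 4, mulT b (mulT b x x) (mulT b x x) ≤ 0 ↔ x ≠ 3
  cases b <;> decide

lemma cpt (b : Bool) : Cpt (car b) := by
  classical
  intro Γ h
  choose m v hv using fun F : Finset Fm =>
    h (F.filter (· ∈ Γ)) (fun x hx => (Finset.mem_filter.1 hx).2)
  let U : Ultrafilter (Finset Fm) := Ultrafilter.of atTop
  have : ∀ n, ∃ a : Ch b, ∀ᶠ i in (U : Filter (Finset Fm)), v i n = a := fun n =>
    Ultrafilter.eventually_exists_iff.1 (Eventually.of_forall fun i => ⟨v i n, rfl⟩)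
  choose V hV using this
  have key : ∀ φ : Fm, ∀ᶠ i in (U : Filter (Finset Fm)), φ.eval (v i) = φ.eval V := by
    intro φ
    induction φ with
    | var n => exact hV n
    | e => exact Eventually.of_forall fun _ => rfl
    | f => exact Eventually.of_forall fun _ => rfl
    | _ φ ψ h1 h2 =>
      filter_upwards [h1, h2] with i h1 h2
      simp only [Fm.eval, h1, h2]
  refine ⟨(), V, fun γ hγ => ?_⟩
  have : ∀ᶠ (i : Finset Fm) in (U : Filter (Finset Fm)), ({γ} : Finset Fm) ≤ i :=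
    Ultrafilter.of_le atTop (eventually_ge_atTop _)
  obtain ⟨i, h1, h2⟩ := (this.and (key γ)).exists
  rw [← h2]
  exact hv i γ (by simpa [hγ] using h1)

lemma rigid (b : Bool) : ∀ x y : Fin 4, (x = 3 ↔ y = 3) → (impT b x 0 = 3 ↔ impT b y 0 = 3) →
    (impT b (impT b x 0) x = 3 ↔ impT b (impT b y 0) y = 3) → x = y := by
  cases b <;> decide

lemma amal (b : Bool) : Amal (car b) := by
  classical
  intro _ _ v w X Y h
  have e : ∀ n ∈ X ∩ Y, v n = w n := fun n hn =>
    rigid b _ _ (h (.var n) (by simpa [Fm.vars] using hn))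
      (h (.imp (.var n) .f) (by simpa [Fm.vars] using hn))
      (h (.imp (.imp (.var n) .f) (.var n)) (by simpa [Fm.vars] using hn))
  refine ⟨(), fun n => if n ∈ X then v n else w n, fun θ hθ => ?_, fun θ hθ => ?_⟩
  · rw [eval_congr _ v θ fun n hn => if_pos (hθ hn)]
  · rw [eval_congr _ w θ fun n hn => ?_]
    split_ifs with hx
    · exact e n ⟨hx, hθ hn⟩
    · rfl

lemma closed (v : ℕ → Ch false) (w : ℕ → Ch true) (π : Fm) (h : π.vars ⊆ ∅) :
    (π.eval v = (3 : Fin 4) ∧ π.eval w = (3 : Fin 4)) ∨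
      (π.eval v = (0 : Fin 4) ∧ π.eval w = (0 : Fin 4)) := by
  induction π with
  | var n => exact absurd (h rfl) (by simp)
  | e => exact Or.inl ⟨rfl, rfl⟩
  | f => exact Or.inr ⟨rfl, rfl⟩
  | _ φ ψ h1 h2 =>
    rcases h1 (fun n hn => h (Or.inl hn)) with ⟨a, b⟩ | ⟨a, b⟩ <;>
      rcases h2 (fun n hn => h (Or.inr hn)) with ⟨c, d⟩ | ⟨c, d⟩ <;>
      simp only [Fm.eval, a, b, c, d] <;>
      first | exact Or.inl ⟨rfl, rfl⟩ | exact Or.inr ⟨rfl, rfl⟩

section
variable {A : Type} [MTL A]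

lemma mono {a b : A} (c : A) (h : a ≤ b) : c * a ≤ c * b :=
  (MTL.res c a _).2 (h.trans ((MTL.res c b _).1 le_rfl))

lemma mul_le (a b : A) : a * b ≤ a := by simpa using mono a (MTL.le_one b)

lemma L1 {p q a b : A} (h : p ⊔ q = 1) (h1 : a * p ≤ b) (h2 : a * q ≤ b) : a ≤ b := by
  have : p ⊔ q ≤ MTL.imp a b := sup_le ((MTL.res _ _ _).1 h1) ((MTL.res _ _ _).1 h2)
  rw [h, ← MTL.res, mul_one] at this
  exact this

lemma L2 {p q a b : A} (h : p ⊔ q = 1) (h1 : a * (p * p) ≤ b) (h2 : a * (q * q) ≤ b) :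
    a ≤ b := by
  have h3 : a * (p * q) ≤ b := by
    refine L1 h (le_trans ?_ ((mul_le _ q).trans h1)) (le_trans ?_ ((mul_le _ p).trans h2))
    · exact le_of_eq (by ac_rfl)
    · exact le_of_eq (by ac_rfl)
  refine L1 h (L1 h ?_ ?_) (L1 h ?_ ?_)
  · rwa [mul_assoc]
  · rwa [mul_assoc]
  · rwa [mul_assoc, mul_comm q]
  · rwa [mul_assoc]

lemma sq_le {a y : A} (hy : y * y ≤ MTL.f) (h : a ≤ y) : a * a ≤ MTL.f :=
  (mono a h).trans (by rw [mul_comm]; exact (mono y h).trans hy)

lemma mp (a b : A) : a * MTL.imp a b ≤ b := (MTL.res _ _ _).2 le_rfl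

lemma core (x y z : A) (h1 : y * y ≤ MTL.f) (h2 : MTL.imp y z ≤ y) (h3 : MTL.imp z MTL.f ≤ y) :
    MTL.imp (x * x * x) MTL.f * x * (MTL.imp (x * x * x) MTL.f * x) ≤ MTL.f := by
  set t := MTL.imp (x * x * x) MTL.f with ht
  refine L2 (MTL.prelin (x * x) z) ?_ ?_
  · set s := MTL.imp (x * x) z
    refine L2 (MTL.prelin x y) ?_ ?_
    · have := sq_le h1 (mp x y)
      refine le_trans (le_of_eq ?_) ((mul_le _ (t * t * (s * s))).trans this)
      ac_rfl
    · set r := MTL.imp y x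
      have a : y * (x * s * r) ≤ z := by
        calc y * (x * s * r) = x * s * (y * r) := by ac_rfl
          _ ≤ x * s * x := mono _ (mp y x)
          _ = x * x * s := by ac_rfl
          _ ≤ z := mp _ _
      have := sq_le h1 (((MTL.res _ _ _).1 a).trans h2)
      refine le_trans (le_of_eq ?_) ((mul_le _ (t * t)).trans this)
      ac_rfl
  · set s := MTL.imp z (x * x)
    have a : z * (t * x * s) ≤ MTL.f := by
      calc z * (t * x * s) = t * x * (z * s) := by ac_rfl
        _ ≤ t * x * (x * x) := mono _ (mp _ _)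
        _ = x * x * x * t := by ac_rfl
        _ ≤ MTL.f := mp _ _
    have := sq_le h1 (((MTL.res _ _ _).1 a).trans h3)
    refine le_trans (le_of_eq ?_) this
    ac_rfl

end

def g1 : Fm := .imp (.mul (.var 1) (.var 1)) .f
def g2 : Fm := .imp (.imp (.var 1) (.var 2)) (.var 1)
def g3 : Fm := .imp (.imp (.var 2) .f) (.var 1)
def tx : Fm := .mul (.imp (.mul (.mul (.var 0) (.var 0)) (.var 0)) .f) (.var 0)
def ph : Fm := .imp (.mul tx tx) .f

theorem result : ¬ ∃ L₀ ∈ ExtDIP, ∀ L ∈ ExtDIP, ∀ Γ φ, L₀ Γ φ → L Γ φ := by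
  rintro ⟨L₀, ⟨⟨A, -, rfl⟩, hd⟩, hL⟩
  have h0 : Ext A {g1, g2, g3} ph := by
    intro B _ v hv
    exact (imp_eq_one _ _).2 (core (v 0) (v 1) (v 2)
      ((imp_eq_one _ _).1 (hv g1 (by simp))) ((imp_eq_one _ _).1 (hv g2 (by simp)))
      ((imp_eq_one _ _).1 (hv g3 (by simp))))
  obtain ⟨P, hP, h1, h2⟩ := hd _ _ h0
  have h3 := (ext_iff (nil true) (cpt true) _ _).1
    (hL _ (mem_extDIP (nil true) (cpt true) (amal true)) _ _ h2)
  let v : ℕ → Ch false := fun n => if n = 1 then (2 : Fin 4) else (1 : Fin 4)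
  have h4 := h3 () (fun _ => (2 : Fin 4)) (fun π hπ => by
    have a := (ext_iff (nil false) (cpt false) _ _).1
      (hL _ (mem_extDIP (nil false) (cpt false) (amal false)) _ _ (h1 π hπ)) () v (by
        rintro γ (rfl | rfl | rfl) <;> rfl)
    have b : π.vars ⊆ ∅ := by
      intro n hn
      have := hP π hπ hn
      simp [g1, g2, g3, ph, tx, Fm.vars] at this
    rcases closed v (fun _ => (2 : Fin 4)) π b with h | h
    · exact h.2
    · rw [h.1] at a
      exact absurd a (by decide))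
  exact absurd h4 (by decide)

end Pool.Agent.Results.MP_acc005_lc.NoLeast
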